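import Pool.Agent.K1H39.TS.Log

set_option autoImplicit false

/-!
# 3SUM-Indexing: space `n ^ (1 + 2 / t) / (2 ^ ((2 t + 1) w) polylog n)` for `t` adaptive probes of `w` bits

Data structures in the cell probe model: `S` cells with `W` possible contents each (`W = 2 ^ w` for
words of `w` bits), arbitrary preprocessing, adaptive queries (decision trees which probe cells),
arbitrary computation (also not uniform), randomised. For all arrays of `n` integers from
`{0, …, n ^ 2}` and all `z` it is decided with at most `t = 2 h` probes whether `z` is the sum of an
element of the first array and an element of the second array, correctly with probability at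
least `1 / 2 + δ`. Then

  `δ ^ 2 n ^ (1 + 1 / h) ≤ 4000 * 16 ^ h * W ^ (4 h + 1) * (S + n) * (log₂ (n / δ)) ^ 2`.

So for every even number `t` of probes of words of `o(log n)` bits, and for advantages
`n ^ (-o(1))`, the space is at least `n ^ (1 + 2 / t - o(1))`. The best bound so far for more than two
probes was the bound `n ^ (1 + 1 / (t - 1))` (cell sampling, MultiProbeLowerBound); for
`t = 4` this is `n ^ (4 / 3)`, the bound of the theorem is `n ^ (3 / 2)`.

Proof. Let `k = n / 2`. The first array consists of the numbers `i + k (r i)`, `i < k`, with random
shifts `r i` in `{0, …, k - 1}`, the second one of the numbers `k c`, `c < 2 k`, with `β (c mod k)`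
true, for `k` random bits `β`. Every integer `i + k g`, `k ≤ g < 2 k`, has at most one
representation, and it is a sum iff `β (g - r i)` is true. These are `k ^ 2` queries, and only
`k` random signs, but the query `(i, g)` belongs to a random class `g - r i`. A decision tree is a
combination of products of `t` signs (is this the contents of that cell?), so that for some
choice of the products the correlation with the answers is at least `δ / W ^ t`. The correlation
is a quadratic form, the matrix of which (Kikuchi matrix) is indexed by the tuples of `h` sets of `l`
signs each, with `l` about `n` up to logarithms: the first half of the product is removed from the sets,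
the second half is inserted. The matrix is a sum of `k` matrices with random signs. We estimate the
norm, with the rows weighted by the number of queries which use them, by the trace of a power of
order about `h l log n`. For this the part of one class in a row has to be small; by the random
shifts this holds for almost all rows, and the other rows are deleted.
-/

namespace Pool.Agent.Results.MP_e016b3_lc.ManyShortProbes

open Pool.Agent.K1H39.TS
open Pool.Agent.R563.TP (SumDS)

/-- Every randomised data structure with `S` cells with `W` possible contents each which decides
3SUM-Indexing for arrays of `n` integers from `{0, …, n ^ 2}` with `2 * h` adaptive probes, with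
probability at least `1 / 2 + δ`, satisfies
`δ ^ 2 n ^ (1 + 1 / h) ≤ 4000 * 16 ^ h * W ^ (4 h + 1) * (S + n) * (log₂ (n / δ)) ^ 2`. -/
theorem result (n S W h : ℕ) (δ : ℝ) (hn : 2 ≤ n) (hh : 1 ≤ h) (hW : 1 ≤ W) (hδ : 0 < δ)
    (hδ2 : δ ≤ 1 / 2) (Ω : Type) [Fintype Ω] (p : Ω → ℝ) (D : Ω → SumDS n S W)
    (hD : Solves p D (2 * h) δ) :
    δ ^ 2 * (n : ℝ) ^ (1 + 1 / (h : ℝ)) ≤ 4000 * 16 ^ h * (W : ℝ) ^ (4 * h + 1) *
      ((S : ℝ) + n) * (Real.logb 2 (n / δ)) ^ 2 :=
  final hn hh hW p D δ hδ hδ2 hD

end Pool.Agent.Results.MP_e016b3_lc.ManyShortProbes
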