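import Pool.Agent.K1H39.TO.Fin

set_option autoImplicit false

/-!
# 3SUM-Indexing: space `n ^ (1 + 2 / t - o(1))` for an odd number `t` of probes of short words

Data structures in the cell probe model: `S` cells with `W` possible contents each (`W = 2 ^ w` for
words of `w` bits), arbitrary preprocessing, adaptive queries (decision trees which probe cells),
arbitrary computation (also not uniform), randomised. For all arrays of `n` integers from
`{0, …, n ^ 2}` and all `z` it is decided with at most `t` probes, `t` odd, whether `z` is the sum of
an element of the first array and an element of the second array, correctly with probability at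
least `1 / 2 + δ`. Then

  `δ ^ 7 n ^ (1 + 2 / t) ≤ 2 ^ (12 t + 31) * W ^ (7 t + 1) * (S + n) * (log₂ (n / δ)) ^ 2`.

So for words of `o(log n)` bits and advantages `n ^ (-o(1))` the space is at least
`n ^ (1 + 2 / t - o(1))`. For three probes this is `n ^ (5 / 3 - o(1))`; the best bound so far was
`n ^ (3 / 2)` (cell sampling, MultiProbeLowerBound, and also the bound for four probes of
ManyShortProbes). ManyShortProbes has the bound for even `t`, with better powers of `δ` and `W`; its
proof needs a product of an even number of signs, which is split into two halves.

Proof. As for even `t`, let `k = n / 2`; the first array consists of the numbers `i + k (r i)` with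
random shifts `r i`, the second one of the numbers `k c` with `β (c mod k)` true, and the query
`(i, g)` belongs to the class `g - r i` with the random sign `β (g - r i)`. For some choice of products
of `t` signs (contents of cells) the correlation with the answers is at least `δ / W ^ t`. Now let
`f ^ t` be about `k`. Every query, but for a small part, gets a type `B`, a nonempty set of positions,
such that many queries (at least `f ^ (t - 2 |B|)` up to a constant) agree with it at the
positions in `B`, with `B` as large as possible. The queries of one type which agree on `B` are a
group; in it the signs at the positions in `B` cancel in the product of two queries, so that by the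
Cauchy-Schwarz inequality the products of pairs of queries of one group are correlated with the
products of the random signs of their two classes. These are products of an even number
`2 (t - |B|)` of signs, but of a random variable of degree two. To make it linear we take
all pairs with one class in `L`, the other one not in `L`, for a set `L` of classes, and fix the signs
outside `L`. The matrix of a pair `(z, z')` (Kikuchi matrix) has as rows the tuples of `t` sets of `l` signs,
with `l` about `n / f ^ 2`, each set taken from two copies of the signs: half of the free positions
of `z` and the other half of `z'` are removed, the others inserted. For a fixed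
query `z` all the `z'` of its group give a matrix with one random sign. Its rows have to be bounded:
by the maximality of the types (regularity) almost all rows are used by few other queries of the
group, and the other rows are deleted. The norm of the sum of the matrices is
estimated by traces of powers, with a part of one class in a row which is small by the random
shifts.
-/

namespace Pool.Agent.Results.MP_e016b3_lc.OddShortProbes

open Pool.Agent.K1H39.TS
open Pool.Agent.R563.TP (SumDS)

/-- Every randomised data structure with `S` cells with `W` possible contents each which decides
3SUM-Indexing for arrays of `n` integers from `{0, …, n ^ 2}` with an odd number `t ≥ 3` of adaptive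
probes, with probability at least `1 / 2 + δ`, satisfies
`δ ^ 7 n ^ (1 + 2 / t) ≤ 2 ^ (12 t + 31) * W ^ (7 t + 1) * (S + n) * (log₂ (n / δ)) ^ 2`. -/
theorem result (n S W t : ℕ) (δ : ℝ) (hn : 2 ≤ n) (ht : 3 ≤ t) (_hodd : Odd t) (hW : 1 ≤ W)
    (hδ : 0 < δ) (hδ2 : δ ≤ 1 / 2) (Ω : Type) [Fintype Ω] (p : Ω → ℝ) (D : Ω → SumDS n S W)
    (hD : Solves p D t δ) :
    δ ^ 7 * (n : ℝ) ^ (1 + 2 / (t : ℝ)) ≤ 2 ^ (12 * t + 31) * (W : ℝ) ^ (7 * t + 1) *
      ((S : ℝ) + n) * (Real.logb 2 (n / δ)) ^ 2 :=
  Pool.Agent.K1H39.TO.final hn (by omega) hW p D δ hδ hδ2 hD

end Pool.Agent.Results.MP_e016b3_lc.OddShortProbes
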